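import Pool.Agent.H89.NV.TU2

/-! Row `U_CKB` of `nvk_modules`: the elements of `K`. -/

set_option autoImplicit false
set_option linter.unusedSectionVars false

namespace Pool.Agent.H66.NVK

open MeasureTheory Set Filter NumberField NumberField.InfinitePlace Pool.Agent.H65.CM4
  Pool.Agent.H61.NVK Pool.Agent.H89.NV
open scoped Real

section

variable {k : Type} [Field k] [NumberField k]
variable {D : 𝓞 k} {K : Type} [Field K] [Algebra k K]

theorem re_alg (h : CK D K) (x : k) : h.re (algebraMap k K x) = x := by
  rw [Algebra.algebraMap_eq_smul_one, map_smul, h.re1, smul_eq_mul, mul_one]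

theorem im_alg (h : CK D K) (x : k) : h.im (algebraMap k K x) = 0 := by
  rw [Algebra.algebraMap_eq_smul_one, map_smul, h.im1, smul_zero]

theorem re_comb (h : CK D K) (a b : k) :
    h.re (algebraMap k K a + algebraMap k K b * h.s) = a := by
  rw [map_add, re_alg, ← Algebra.smul_def, map_smul, h.res, smul_zero, add_zero]

theorem im_comb (h : CK D K) (a b : k) :
    h.im (algebraMap k K a + algebraMap k K b * h.s) = b := by
  rw [map_add, im_alg, ← Algebra.smul_def, map_smul, h.ims, smul_eq_mul, mul_one, zero_add]

theorem mul_comb (h : CK D K) (x y : K) :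
    x * y = algebraMap k K (h.re x * h.re y - D * (h.im x * h.im y)) +
      algebraMap k K (h.re x * h.im y + h.im x * h.re y) * h.s := by
  have hx := h.eq x
  have hy := h.eq y
  calc x * y = (algebraMap k K (h.re x) + algebraMap k K (h.im x) * h.s) *
        (algebraMap k K (h.re y) + algebraMap k K (h.im y) * h.s) := by rw [← hx, ← hy]
    _ = algebraMap k K (h.re x) * algebraMap k K (h.re y) +
        algebraMap k K (h.im x) * algebraMap k K (h.im y) * (h.s * h.s) +
        (algebraMap k K (h.re x) * algebraMap k K (h.im y) +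
          algebraMap k K (h.im x) * algebraMap k K (h.re y)) * h.s := by ring
    _ = _ := by
        rw [h.sq]
        simp only [map_sub, map_mul, map_add]
        ring

theorem re_mul (h : CK D K) (x y : K) :
    h.re (x * y) = h.re x * h.re y - D * (h.im x * h.im y) := by
  conv_lhs => rw [mul_comb h x y]
  rw [re_comb]

theorem im_mul (h : CK D K) (x y : K) :
    h.im (x * y) = h.re x * h.im y + h.im x * h.re y := by
  conv_lhs => rw [mul_comb h x y]
  rw [im_comb]

theorem ext_ck (h : CK D K) (x y : K) (h1 : h.re x = h.re y) (h2 : h.im x = h.im y) : x = y := by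
  rw [h.eq x, h.eq y, h1, h2]

theorem q4_spec (f A : Ideal (𝓞 k)) (b : 𝓞 k) (hF : Fm f D A b) :
    4 * q4 (b ^ 2 + D) = b ^ 2 + D := by
  have h1 : b ^ 2 + D ∈ Ideal.span {((4 : ℕ) : 𝓞 k)} * (A * f ^ 2) := hF.dis
  rw [Ideal.mem_span_singleton_mul] at h1
  obtain ⟨c, -, hc⟩ := h1
  have h2 : ∃ c : 𝓞 k, 4 * c = b ^ 2 + D := ⟨c, by rw [← hc]; norm_num⟩
  unfold q4
  rw [dif_pos h2]
  exact h2.choose_spec

end

section

variable {k : Type} [Field k] [NumberField k] [IsTotallyReal k]
variable {D : 𝓞 k} {K : Type} [Field K] [Algebra k K]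

theorem zz_comb (h : CK D K) (b : 𝓞 k) (u : V2 k) :
    zz h b u = algebraMap k K ((u.1 : k) + (u.2 : k) * (b : k) / 2) +
      algebraMap k K ((u.2 : k) / 2) * h.s := by
  unfold zz
  have e : ∀ x : 𝓞 k, algebraMap (𝓞 k) K x = algebraMap k K (x : k) := fun x =>
    IsScalarTower.algebraMap_apply (𝓞 k) k K x
  rw [e, e, e]
  simp only [map_add, map_div₀, map_mul, map_ofNat]
  ring

theorem re_zz (h : CK D K) (b : 𝓞 k) (u : V2 k) :
    h.re (zz h b u) = (u.1 : k) + (u.2 : k) * (b : k) / 2 := by
  rw [zz_comb, re_comb]

theorem im_zz (h : CK D K) (b : 𝓞 k) (u : V2 k) : h.im (zz h b u) = (u.2 : k) / 2 := by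
  rw [zz_comb, im_comb]

theorem nk_mul (h : CK D K) (x y : K) : nk h (x * y) = nk h x * nk h y := by
  unfold nk
  rw [re_mul, im_mul]
  ring

theorem nk_pos (h : CK D K) (hD : tp D) (x : K) (hx : x ≠ 0) (v : Pl k) : 0 < rv v (nk h x) := by
  have hDv := hD v
  unfold nk
  rw [map_add, map_mul, map_pow, map_pow]
  by_cases h1 : h.im x = 0
  · have h2 : h.re x ≠ 0 := by
      intro h2
      apply hx
      rw [h.eq x, h1, h2]
      simp
    have h3 : rv v (h.re x) ≠ 0 := by
      intro h3
      exact h2 ((map_eq_zero (rv v)).1 h3)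
    have h4 : 0 < rv v (h.re x) ^ 2 := by positivity
    have h5 : 0 ≤ rv v (D : k) * rv v (h.im x) ^ 2 := by positivity
    linarith
  · have h3 : rv v (h.im x) ≠ 0 := by
      intro h3
      exact h1 ((map_eq_zero (rv v)).1 h3)
    have h4 : 0 < rv v (D : k) * rv v (h.im x) ^ 2 := by positivity
    have h5 : 0 ≤ rv v (h.re x) ^ 2 := by positivity
    linarith

end

variable (k : Type) [Field k] [NumberField k] [IsTotallyReal k]

theorem pf_CKB : T_CKB k := by
  intro D hD K _ _ h
  have hpl : Nonempty (Pl k) := by
    show Nonempty (InfinitePlace k)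
    infer_instance
  refine ⟨nk_mul h, fun x hx v => nk_pos h hD x hx v, ?_, ?_, ?_, ?_, ?_, ?_⟩
  · unfold nk
    rw [map_zero, map_zero]
    ring
  · unfold nk
    rw [h.re1, h.im1]
    ring
  · intro x
    unfold nk
    rw [re_alg, im_alg]
    ring
  · intro x y hxy
    by_cases hy : y = 0
    · refine ⟨0, 1, Or.inr one_ne_zero, ?_⟩
      rw [hy]
      simp
    · refine ⟨nk h y, h.re x * h.re y + D * (h.im x * h.im y), Or.inl ?_, ?_⟩
      · intro h0
        obtain ⟨v⟩ := hpl
        have := nk_pos h hD y hy v
        rw [h0, map_zero] at this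
        exact lt_irrefl _ this
      · apply ext_ck h
        · rw [re_mul, re_mul, re_alg, im_alg, re_alg, im_alg]
          unfold nk
          linear_combination (D : k) * h.im y * hxy
        · rw [im_mul, im_mul, re_alg, im_alg, re_alg, im_alg]
          unfold nk
          linear_combination -(h.re y) * hxy
  · intro g x y
    rw [re_mul, im_mul, im_mul, re_mul]
    unfold nk
    ring
  · intro f A b hf hF
    have hq := q4_spec f A b hF
    have hqk : 4 * ((q4 (b ^ 2 + D) : 𝓞 k) : k) = (b : k) ^ 2 + (D : k) := by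
      have := congrArg (algebraMap (𝓞 k) k) hq
      rw [map_mul, map_add, map_pow, map_ofNat] at this
      exact this
    refine ⟨?_, ?_, ?_, ?_, ?_, ?_, ?_⟩
    · intro u v
      apply ext_ck h
      · rw [map_add, re_zz, re_zz, re_zz]
        simp only [Prod.fst_add, Prod.snd_add, map_add]
        ring
      · rw [map_add, im_zz, im_zz, im_zz]
        simp only [Prod.snd_add, map_add]
        ring
    · intro c u
      rw [IsScalarTower.algebraMap_apply (𝓞 k) k K c]
      apply ext_ck h
      · rw [re_mul, re_alg, im_alg, re_zz, re_zz]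
        simp only [Prod.smul_fst, Prod.smul_snd, smul_eq_mul, map_mul]
        ring
      · rw [im_mul, re_alg, im_alg, im_zz, im_zz]
        simp only [Prod.smul_snd, smul_eq_mul, map_mul]
        ring
    · intro u v huv
      have h1 := congrArg h.im huv
      have h2 := congrArg h.re huv
      rw [im_zz, im_zz] at h1
      rw [re_zz, re_zz] at h2
      have h3 : (u.2 : k) = (v.2 : k) := by
        have : (2 : k) ≠ 0 := two_ne_zero
        field_simp at h1
        exact h1
      have h4 : (u.1 : k) = (v.1 : k) := by
        rw [h3] at h2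
        exact add_right_cancel h2
      exact Prod.ext (RingOfIntegers.ext h4) (RingOfIntegers.ext h3)
    · intro u
      unfold nk
      rw [re_zz, im_zz]
      simp only [map_add, map_mul, map_pow]
      linear_combination -(1 / 4 : k) * (u.2 : k) ^ 2 * hqk
    · intro u v
      rw [re_zz, im_zz, re_zz, im_zz]
      simp only [map_sub, map_mul]
      ring
    · intro u
      unfold qd
      refine Finset.prod_congr rfl fun v _ => ?_
      unfold nk Pool.Agent.H89.NV.em
      rw [re_zz, im_zz]
      simp only [map_add, map_mul, map_pow, map_div₀, map_ofNat]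
      ring
    · intro j u
      apply ext_ck h
      · rw [re_zz, re_zz]
        simp only [map_add, map_sub, map_mul, map_ofNat]
        ring
      · rw [im_zz, im_zz]

end Pool.Agent.H66.NVK
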